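import Mathlib
import Pool.Agent.TH888.R.Mean
import Pool.Agent.W66.LO
import Pool.Agent.H381R2.HR.A1
import Pool.Agent.H381R2.HR.A2

set_option autoImplicit false

/-!
# The mean over the reduced residues modulo `b ^ q`, with an error term
-/

open Filter Topology
open scoped Real

namespace Pool.Agent.R303.TA

open Pool.Agent.W66L
open Pool.Agent.H305R2 (roughPart SM SM_pos SMz mem_SMz ZZ VV sum_rough_eq sum_le_VV tail_le
  ZZ_le_exp ZZ_nonneg VV_nonneg VV_tendsto log_nat_tendsto)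

/-- The prime number theorem with a relative error `1 / log x`. -/
lemma pi_rate : ∃ C : ℝ, 0 < C ∧ ∀ x : ℝ, 2 ≤ x →
    |(Nat.primeCounting ⌊x⌋₊ : ℝ) * Real.log x - x| ≤ C * (x / Real.log x) := by
  obtain ⟨C, hC, h⟩ := Pool.Agent.H381R2.HR.A2 Pool.Agent.H381R2.HR.A1
  refine ⟨C, hC, fun x hx => ?_⟩
  have hx0 : 0 < x := by linarith
  have hl : 0 < Real.log x := Real.log_pos (by linarith)
  have h1 := h x hx
  have e : (Nat.primeCounting ⌊x⌋₊ : ℝ) * Real.log x - x =
      ((Nat.primeCounting ⌊x⌋₊ : ℝ) - x / Real.log x) * Real.log x := by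
    field_simp
  rw [e, abs_mul, abs_of_pos hl]
  calc |(Nat.primeCounting ⌊x⌋₊ : ℝ) - x / Real.log x| * Real.log x ≤
      C * (x / (Real.log x) ^ 2) * Real.log x := mul_le_mul_of_nonneg_right h1 hl.le
    _ = C * (x / Real.log x) := by field_simp

lemma AA_up {b : ℕ} (hb : 2 ≤ b) {δ : ℝ} (hδ : 0 < δ) (hδ1 : δ < 1 / 4) {q : ℕ} (h2 : b ≤ q)
    (hX3 : 3 ≤ δ * (Real.log b * q))
    (hx0 : ∀ x : ℝ, Real.exp ((1 - 2 * δ) * (Real.log b * q)) ≤ x →
      (Nat.primeCounting ⌊x⌋₊ : ℝ) * Real.log x ≤ (1 + δ) * x) :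
    AA b q ≤ (b : ℝ) ^ q * ((1 + δ) / ((1 - 2 * δ) * (Real.log b * q)) * VB b q +
      Real.exp (-(δ * (Real.log b * q) / 2)) * ZZ q) := by
  set lb := Real.log b with hlb
  have hlb0 : 0 < lb := Real.log_pos (by exact_mod_cast hb)
  have hq0 : (0 : ℝ) < q := by exact_mod_cast (by omega : 0 < q)
  have hlq : 0 < lb * q := by positivity
  set X := b ^ q - 1 with hX
  have hbr : (2 : ℝ) ≤ b := by exact_mod_cast hb
  have hbq : (b : ℝ) ^ q = Real.exp (lb * q) := by
    rw [mul_comm, Real.exp_nat_mul, hlb, Real.exp_log (by linarith)]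
  have hXr : (X : ℝ) = (b : ℝ) ^ q - 1 := by
    rw [hX, Nat.cast_sub (Nat.one_le_pow _ _ (by omega))]
    push_cast
    rfl
  have hXle : (X : ℝ) ≤ (b : ℝ) ^ q := by linarith
  have hXnn : (0 : ℝ) ≤ X := Nat.cast_nonneg _
  set S := Real.exp (δ * (lb * q)) with hS
  have hS0 : 0 < S := Real.exp_pos _
  have hS1 : 1 ≤ S := Real.one_le_exp (by linarith)
  rw [AA_eq hb h2, ← Finset.sum_filter_add_sum_filter_not (SMz q (X : ℝ)) (fun s : ℕ => (s : ℝ) ≤ S),
    mul_add]
  have hF : ∀ n ∈ (SMz q (X : ℝ)).filter (fun s : ℕ => (s : ℝ) ≤ S), n ∈ SM q := by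
    intro n hn
    rw [Finset.mem_filter, mem_SMz hXnn] at hn
    exact hn.1.1
  apply add_le_add
  · have hterm : ∀ s ∈ (SMz q (X : ℝ)).filter (fun s : ℕ => (s : ℝ) ≤ S),
        (if s.Coprime b then (1 : ℝ) else 0) *
          (((Finset.Ioc 0 (X / s)).filter (fun l => l.Prime ∧ q < l)).card : ℝ) ≤
        (b : ℝ) ^ q * ((1 + δ) / ((1 - 2 * δ) * (lb * q))) * copHom b s := by
      intro s hs
      rw [Finset.mem_filter, mem_SMz hXnn] at hs
      obtain ⟨⟨hs1, _⟩, hsS⟩ := hs
      have hs0 : 0 < s := SM_pos hs1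
      have hs0' : (0 : ℝ) < s := by exact_mod_cast hs0
      have hs1' : (1 : ℝ) ≤ s := by exact_mod_cast hs0
      rw [copHom_apply]
      by_cases hc : s.Coprime b
      · rw [if_pos hc, if_pos hc, one_mul]
        refine (card_inner_le _ _).trans ?_
        set x := (X : ℝ) / s with hx
        have hfl : X / s = ⌊x⌋₊ := by rw [hx, Nat.floor_div_eq_div]
        have hxlow : Real.exp ((1 - 2 * δ) * (lb * q)) ≤ x := by
          rw [hx, le_div_iff₀ hs0', hXr, hbq]
          have e1 : Real.exp (lb * q) = Real.exp ((1 - 2 * δ) * (lb * q)) *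
              (Real.exp (δ * (lb * q)) * Real.exp (δ * (lb * q))) := by
            rw [← Real.exp_add, ← Real.exp_add]; ring_nf
          rw [e1, ← hS]
          have e2 : 1 ≤ Real.exp ((1 - 2 * δ) * (lb * q)) := Real.one_le_exp (by
            apply mul_nonneg (by linarith) hlq.le)
          have e3 : 4 ≤ S := by
            have := Real.add_one_le_exp (δ * (lb * q))
            linarith
          have e4 : Real.exp ((1 - 2 * δ) * (lb * q)) * s ≤ Real.exp ((1 - 2 * δ) * (lb * q)) * S :=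
            mul_le_mul_of_nonneg_left hsS (Real.exp_pos _).le
          have e5 : 1 ≤ Real.exp ((1 - 2 * δ) * (lb * q)) * S := by nlinarith
          have e6 : Real.exp ((1 - 2 * δ) * (lb * q)) * S * 4 ≤
              Real.exp ((1 - 2 * δ) * (lb * q)) * S * S :=
            mul_le_mul_of_nonneg_left e3 (by positivity)
          nlinarith
        have hx0' : 0 < x := lt_of_lt_of_le (Real.exp_pos _) hxlow
        have hlogx : (1 - 2 * δ) * (lb * q) ≤ Real.log x := by
          rw [Real.le_log_iff_exp_le hx0']; exact hxlow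
        have hpos : 0 < (1 - 2 * δ) * (lb * q) := mul_pos (by linarith) hlq
        have h3 := hx0 x hxlow
        have h4 : (Nat.primeCounting (X / s) : ℝ) ≤ (1 + δ) * x / ((1 - 2 * δ) * (lb * q)) := by
          rw [hfl, le_div_iff₀ hpos]
          have : (Nat.primeCounting ⌊x⌋₊ : ℝ) * ((1 - 2 * δ) * (lb * q)) ≤
            (Nat.primeCounting ⌊x⌋₊ : ℝ) * Real.log x := mul_le_mul_of_nonneg_left hlogx (by positivity)
          linarith
        refine h4.trans ?_
        have h5 : x ≤ (b : ℝ) ^ q * (s : ℝ)⁻¹ := by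
          rw [hx, div_eq_mul_inv]
          exact mul_le_mul_of_nonneg_right hXle (by positivity)
        calc (1 + δ) * x / ((1 - 2 * δ) * (lb * q)) ≤
            (1 + δ) * ((b : ℝ) ^ q * (s : ℝ)⁻¹) / ((1 - 2 * δ) * (lb * q)) := by gcongr
          _ = _ := by ring
      · rw [if_neg hc, if_neg hc]; simp
    refine (Finset.sum_le_sum hterm).trans ?_
    rw [← Finset.mul_sum]
    have h3 := sum_le_VB b q _ hF
    have hpos : 0 < (1 - 2 * δ) * (lb * q) := mul_pos (by linarith) hlq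
    calc (b : ℝ) ^ q * ((1 + δ) / ((1 - 2 * δ) * (lb * q))) *
          ∑ s ∈ (SMz q (X : ℝ)).filter (fun s : ℕ => (s : ℝ) ≤ S), copHom b s ≤
        (b : ℝ) ^ q * ((1 + δ) / ((1 - 2 * δ) * (lb * q))) * VB b q := by gcongr
      _ = _ := by ring
  · have hterm : ∀ s ∈ (SMz q (X : ℝ)).filter (fun s : ℕ => ¬ (s : ℝ) ≤ S),
        (if s.Coprime b then (1 : ℝ) else 0) *
          (((Finset.Ioc 0 (X / s)).filter (fun l => l.Prime ∧ q < l)).card : ℝ) ≤
        (b : ℝ) ^ q * (s : ℝ)⁻¹ := by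
      intro s _
      have h3 : (((Finset.Ioc 0 (X / s)).filter (fun l => l.Prime ∧ q < l)).card : ℝ) ≤
          (X : ℝ) * (s : ℝ)⁻¹ := by
        have h4 : ((Finset.Ioc 0 (X / s)).filter (fun l => l.Prime ∧ q < l)).card ≤ X / s := by
          refine (Finset.card_filter_le _ _).trans ?_
          rw [Nat.card_Ioc, Nat.sub_zero]
        rw [← div_eq_mul_inv]
        exact le_trans (by exact_mod_cast h4) Nat.cast_div_le
      have h5 : (if s.Coprime b then (1 : ℝ) else 0) ≤ 1 := by split_ifs <;> norm_num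
      have h6 : (0 : ℝ) ≤ (if s.Coprime b then (1 : ℝ) else 0) := by split_ifs <;> norm_num
      calc _ ≤ 1 * ((X : ℝ) * (s : ℝ)⁻¹) := mul_le_mul h5 h3 (by positivity) (by norm_num)
        _ ≤ _ := by
          rw [one_mul]
          exact mul_le_mul_of_nonneg_right hXle (by positivity)
    refine (Finset.sum_le_sum hterm).trans ?_
    rw [← Finset.mul_sum]
    apply mul_le_mul_of_nonneg_left _ (by positivity)
    have h3 := tail_le q hS0 ((SMz q (X : ℝ)).filter (fun s : ℕ => ¬ (s : ℝ) ≤ S)) (by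
      intro n hn
      rw [Finset.mem_filter, mem_SMz hXnn] at hn
      exact ⟨hn.1.1, (not_le.1 hn.2).le⟩)
    refine h3.trans (le_of_eq ?_)
    rw [hS, ← Real.exp_mul]
    ring_nf

lemma AA_low {b : ℕ} (hb : 2 ≤ b) {δ : ℝ} (hδ : 0 < δ) (hδ1 : δ < 1 / 4) {q : ℕ} (h2 : b ≤ q)
    (hX3 : 3 ≤ δ * (Real.log b * q)) (hXδ : 1 / δ ≤ δ * (Real.log b * q))
    (hx0 : ∀ x : ℝ, Real.exp ((1 - 2 * δ) * (Real.log b * q)) ≤ x →
      (1 - δ) * x ≤ (Nat.primeCounting ⌊x⌋₊ : ℝ) * Real.log x) :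
    (b : ℝ) ^ q * ((1 - δ) ^ 2 / (Real.log b * q) *
      (VB b q - Real.exp (-(δ * (Real.log b * q) / 2)) * ZZ q) -
      q * Real.exp (-((1 - δ) * (Real.log b * q)))) ≤ AA b q := by
  set lb := Real.log b with hlb
  have hlb0 : 0 < lb := Real.log_pos (by exact_mod_cast hb)
  have hq0 : (0 : ℝ) < q := by exact_mod_cast (by omega : 0 < q)
  have hlq : 0 < lb * q := by positivity
  set X := b ^ q - 1 with hX
  have hbr : (2 : ℝ) ≤ b := by exact_mod_cast hb
  have hbq : (b : ℝ) ^ q = Real.exp (lb * q) := by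
    rw [mul_comm, Real.exp_nat_mul, hlb, Real.exp_log (by linarith)]
  have hXr : (X : ℝ) = (b : ℝ) ^ q - 1 := by
    rw [hX, Nat.cast_sub (Nat.one_le_pow _ _ (by omega))]
    push_cast
    rfl
  have hbig : 1 / δ ≤ (b : ℝ) ^ q := by
    rw [hbq]
    have e1 := Real.add_one_le_exp (lb * q)
    have e2 : δ * (lb * q) ≤ 1 * (lb * q) := mul_le_mul_of_nonneg_right (by linarith) hlq.le
    linarith
  have hXge : (1 - δ) * (b : ℝ) ^ q ≤ X := by
    rw [hXr]
    rw [div_le_iff₀ hδ] at hbig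
    linarith
  have hXnn : (0 : ℝ) ≤ X := Nat.cast_nonneg _
  have hXle : (X : ℝ) ≤ (b : ℝ) ^ q := by linarith
  set S := Real.exp (δ * (lb * q)) with hS
  have hS0 : 0 < S := Real.exp_pos _
  have hSX : S ≤ X := by
    refine le_trans ?_ hXge
    rw [hbq]
    have e1 : Real.exp (lb * q) = Real.exp ((1 - δ) * (lb * q)) * S := by
      rw [hS, ← Real.exp_add]; ring_nf
    rw [e1]
    have e2 : 2 ≤ Real.exp ((1 - δ) * (lb * q)) := by
      have := Real.add_one_le_exp ((1 - δ) * (lb * q))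
      have e3 : δ * (lb * q) ≤ (1 - δ) * (lb * q) := mul_le_mul_of_nonneg_right (by linarith) hlq.le
      linarith
    nlinarith
  rw [AA_eq hb h2]
  have hsub : SMz q S ⊆ SMz q (X : ℝ) := by
    intro n hn
    rw [mem_SMz hS0.le] at hn
    rw [mem_SMz hXnn]
    exact ⟨hn.1, hn.2.trans hSX⟩
  refine le_trans ?_ (Finset.sum_le_sum_of_subset_of_nonneg hsub fun i _ _ => by
    split_ifs <;> positivity)
  have hterm : ∀ s ∈ SMz q S, (b : ℝ) ^ q * ((1 - δ) ^ 2 / (lb * q)) * copHom b s - q ≤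
      (if s.Coprime b then (1 : ℝ) else 0) *
        (((Finset.Ioc 0 (X / s)).filter (fun l => l.Prime ∧ q < l)).card : ℝ) := by
    intro s hs
    rw [mem_SMz hS0.le] at hs
    obtain ⟨hs1, hsS⟩ := hs
    have hs0 : 0 < s := SM_pos hs1
    have hs0' : (0 : ℝ) < s := by exact_mod_cast hs0
    have hs1' : (1 : ℝ) ≤ s := by exact_mod_cast hs0
    rw [copHom_apply]
    by_cases hc : s.Coprime b
    · rw [if_pos hc, if_pos hc, one_mul]
      refine le_trans ?_ (le_card_inner _ _)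
      set x := (X : ℝ) / s with hx
      have hfl : X / s = ⌊x⌋₊ := by rw [hx, Nat.floor_div_eq_div]
      have hxlow : Real.exp ((1 - 2 * δ) * (lb * q)) ≤ x := by
        rw [hx, le_div_iff₀ hs0', hXr, hbq]
        have e1 : Real.exp (lb * q) = Real.exp ((1 - 2 * δ) * (lb * q)) *
            (Real.exp (δ * (lb * q)) * Real.exp (δ * (lb * q))) := by
          rw [← Real.exp_add, ← Real.exp_add]; ring_nf
        rw [e1, ← hS]
        have e2 : 1 ≤ Real.exp ((1 - 2 * δ) * (lb * q)) := Real.one_le_exp (by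
          apply mul_nonneg (by linarith) hlq.le)
        have e3 : 4 ≤ S := by
          have := Real.add_one_le_exp (δ * (lb * q))
          linarith
        have e4 : Real.exp ((1 - 2 * δ) * (lb * q)) * s ≤ Real.exp ((1 - 2 * δ) * (lb * q)) * S :=
          mul_le_mul_of_nonneg_left hsS (Real.exp_pos _).le
        have e5 : 1 ≤ Real.exp ((1 - 2 * δ) * (lb * q)) * S := by nlinarith
        have e6 : Real.exp ((1 - 2 * δ) * (lb * q)) * S * 4 ≤
            Real.exp ((1 - 2 * δ) * (lb * q)) * S * S :=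
          mul_le_mul_of_nonneg_left e3 (by positivity)
        nlinarith
      have hx0' : 0 < x := lt_of_lt_of_le (Real.exp_pos _) hxlow
      have hx1' : 1 < x := lt_of_lt_of_le (by
        have e1 := Real.add_one_le_exp ((1 - 2 * δ) * (lb * q))
        have e2 : δ * (lb * q) ≤ (1 - 2 * δ) * (lb * q) :=
          mul_le_mul_of_nonneg_right (by linarith) hlq.le
        linarith : (1 : ℝ) < Real.exp ((1 - 2 * δ) * (lb * q))) hxlow
      have hlogx : Real.log x ≤ lb * q := by
        rw [Real.log_le_iff_le_exp hx0', ← hbq, hx, div_le_iff₀ hs0']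
        have : (0 : ℝ) < (b : ℝ) ^ q := by positivity
        nlinarith
      have hlogx0 : 0 < Real.log x := Real.log_pos hx1'
      have h3 := hx0 x hxlow
      have h4 : (1 - δ) * x / (lb * q) ≤ (Nat.primeCounting (X / s) : ℝ) := by
        rw [hfl, div_le_iff₀ hlq]
        have : (Nat.primeCounting ⌊x⌋₊ : ℝ) * Real.log x ≤
          (Nat.primeCounting ⌊x⌋₊ : ℝ) * (lb * q) := mul_le_mul_of_nonneg_left hlogx (by positivity)
        linarith
      have h5 : (1 - δ) * (b : ℝ) ^ q * (s : ℝ)⁻¹ ≤ x := by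
        rw [hx, div_eq_mul_inv]
        exact mul_le_mul_of_nonneg_right hXge (by positivity)
      have h6 : (b : ℝ) ^ q * ((1 - δ) ^ 2 / (lb * q)) * (s : ℝ)⁻¹ ≤ (1 - δ) * x / (lb * q) := by
        have e1 : (b : ℝ) ^ q * ((1 - δ) ^ 2 / (lb * q)) * (s : ℝ)⁻¹ =
            (1 - δ) * ((1 - δ) * (b : ℝ) ^ q * (s : ℝ)⁻¹) / (lb * q) := by ring
        rw [e1]
        apply div_le_div_of_nonneg_right _ hlq.le
        exact mul_le_mul_of_nonneg_left h5 (by linarith)
      linarith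
    · rw [if_neg hc, if_neg hc]
      simp
  refine le_trans ?_ (Finset.sum_le_sum hterm)
  rw [Finset.sum_sub_distrib, ← Finset.mul_sum, Finset.sum_const, nsmul_eq_mul]
  have hcard : ((SMz q S).card : ℝ) * q ≤ S * q := by
    apply mul_le_mul_of_nonneg_right _ hq0.le
    have h5 : (SMz q S).card ≤ (Finset.Ioc 0 ⌊S⌋₊).card := by
      apply Finset.card_le_card
      intro n hn
      rw [mem_SMz hS0.le] at hn
      rw [Finset.mem_Ioc]
      exact ⟨SM_pos hn.1, (Nat.le_floor_iff hS0.le).2 hn.2⟩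
    rw [Nat.card_Ioc, Nat.sub_zero] at h5
    exact le_trans (by exact_mod_cast h5) (Nat.floor_le hS0.le)
  have hV := VB_le b q hS0
  have hSm : S ^ (-(1 / 2) : ℝ) = Real.exp (-(δ * (lb * q) / 2)) := by
    rw [hS, ← Real.exp_mul]; ring_nf
  rw [hSm] at hV
  have h7 : (b : ℝ) ^ q * ((1 - δ) ^ 2 / (lb * q)) *
      (VB b q - Real.exp (-(δ * (lb * q) / 2)) * ZZ q) ≤
      (b : ℝ) ^ q * ((1 - δ) ^ 2 / (lb * q)) * ∑ s ∈ SMz q S, copHom b s := by
    apply mul_le_mul_of_nonneg_left (by linarith)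
    have : 0 ≤ (1 - δ) ^ 2 / (lb * q) := by positivity
    positivity
  have h8 : (b : ℝ) ^ q * (q * Real.exp (-((1 - δ) * (lb * q)))) = S * q := by
    rw [hbq, hS]
    have : Real.exp (lb * q) * Real.exp (-((1 - δ) * (lb * q))) = Real.exp (δ * (lb * q)) := by
      rw [← Real.exp_add]; ring_nf
    rw [← this]; ring
  have e9 : (b : ℝ) ^ q * ((1 - δ) ^ 2 / (lb * q) *
      (VB b q - Real.exp (-(δ * (lb * q) / 2)) * ZZ q) - q * Real.exp (-((1 - δ) * (lb * q)))) =
      (b : ℝ) ^ q * ((1 - δ) ^ 2 / (lb * q)) *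
      (VB b q - Real.exp (-(δ * (lb * q) / 2)) * ZZ q) -
      (b : ℝ) ^ q * (q * Real.exp (-((1 - δ) * (lb * q)))) := by ring
  rw [e9, h8]
  linarith

lemma ev_log (A : ℝ) (n : ℕ) : ∀ᶠ q : ℕ in atTop, A * Real.log q ^ n ≤ (q : ℝ) := by
  have h1 := (Real.isLittleO_pow_log_id_atTop (n := n)).bound
    (show (0 : ℝ) < 1 / (|A| + 1) by positivity)
  have h2 : ∀ᶠ x : ℝ in atTop, A * Real.log x ^ n ≤ x := by
    filter_upwards [h1, eventually_ge_atTop 1] with x hx hx1
    have hl : 0 ≤ Real.log x := Real.log_nonneg hx1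
    rw [Real.norm_of_nonneg (by positivity), id, Real.norm_of_nonneg (by linarith),
      one_div_mul_eq_div, le_div_iff₀ (by positivity)] at hx
    have h3 : A * Real.log x ^ n ≤ (|A| + 1) * Real.log x ^ n :=
      mul_le_mul_of_nonneg_right (by linarith [le_abs_self A]) (by positivity)
    linarith
  exact tendsto_natCast_atTop_atTop.eventually h2

/-- **The mean with error term.** -/
theorem mq_rate {b : ℕ} (hb : 2 ≤ b) : ∃ K : ℝ, 0 < K ∧ ∀ᶠ q : ℕ in atTop,
    |mq b q - Real.exp Real.eulerMascheroniConstant / Real.log b * (Real.log q / q)| ≤ K / q := by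
  obtain ⟨C, hC, hπ⟩ := pi_rate
  obtain ⟨C1, hC1, hV⟩ := Pool.Agent.TH888.R.VV_rate
  obtain ⟨C2, hC2, hZ⟩ := Pool.Agent.TH888.R.ZZ_rate
  set G := Real.exp Real.eulerMascheroniConstant with hG
  have hG0 : 0 < G := Real.exp_pos _
  set lb := Real.log b with hlb
  have hlb0 : 0 < lb := Real.log_pos (by exact_mod_cast hb)
  set ρ := (b.totient : ℝ) / b with hρdef
  have hρ : 0 < ρ := tot_ratio_pos hb
  set D0 := 2 / lb * (C2 + 1) with hD0def
  have hD0 : 0 < D0 := by positivity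
  refine ⟨(8 * D0 * G + 3 * C1) / lb + (1 / lb + 2) / ρ, by positivity, ?_⟩
  filter_upwards [log_nat_tendsto.eventually_ge_atTop (8 * D0 + 1), ev_log (3 / (D0 * lb)) 1,
    ev_log (1 / (D0 ^ 2 * lb)) 2, ev_log (2 * C / (D0 * lb)) 1, ev_log 1 2, ev_log (4 / lb) 1,
    tendsto_natCast_atTop_atTop.eventually_ge_atTop (2 / lb), eventually_ge_atTop b]
    with q e1 e2 e3 e4 e5 e6 e7 hbq
  have hq2 : 2 ≤ q := hb.trans hbq
  have hq0 : (0 : ℝ) < q := by exact_mod_cast (by omega : 0 < q)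
  have hq1 : (1 : ℝ) ≤ q := by exact_mod_cast (by omega : 1 ≤ q)
  rw [pow_one] at e2 e4 e6
  rw [one_mul] at e5
  set l := Real.log q with hl
  have hl1 : 1 ≤ l := by linarith
  have hl0 : 0 < l := by linarith
  set δ := D0 / l with hδ
  have hδ0 : 0 < δ := by positivity
  have hδ8 : δ ≤ 1 / 8 := by
    rw [hδ, div_le_iff₀ hl0]
    linarith
  have hδl : δ * l = D0 := by rw [hδ]; field_simp
  have hP : 0 < lb * q := by positivity
  have h3 : 3 ≤ δ * (lb * q) := by
    rw [hδ, div_mul_eq_mul_div, le_div_iff₀ hl0]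
    rw [div_mul_eq_mul_div, div_le_iff₀ (by positivity)] at e2
    linarith
  have hinv : 1 / δ ≤ δ * (lb * q) := by
    rw [div_mul_eq_mul_div, div_le_iff₀ (by positivity)] at e3
    rw [div_le_iff₀ hδ0]
    have e : δ * (lb * q) * δ = D0 ^ 2 * lb * q / l ^ 2 := by rw [hδ]; field_simp
    rw [e, le_div_iff₀ (by positivity)]
    linarith
  have hlow2 : lb * q / 2 ≤ (1 - 2 * δ) * (lb * q) := by nlinarith
  have hlq2 : 1 ≤ lb * q / 2 := by
    rw [div_le_iff₀ hlb0] at e7
    linarith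
  -- the prime number theorem beyond `exp ((1 - 2 δ) lb q)`
  have hpi : ∀ x : ℝ, Real.exp ((1 - 2 * δ) * (lb * q)) ≤ x →
      |(Nat.primeCounting ⌊x⌋₊ : ℝ) * Real.log x - x| ≤ δ * x := by
    intro x hx
    have hx0 : 0 < x := lt_of_lt_of_le (Real.exp_pos _) hx
    have hx2 : 2 ≤ x := by
      have := Real.add_one_le_exp ((1 - 2 * δ) * (lb * q))
      linarith
    have hlx : lb * q / 2 ≤ Real.log x := by
      have : (1 - 2 * δ) * (lb * q) ≤ Real.log x := by
        rw [Real.le_log_iff_exp_le hx0]; exact hx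
      linarith
    have hlx0 : 0 < Real.log x := by linarith
    refine (hπ x hx2).trans ?_
    have h1 : C / Real.log x ≤ δ := by
      calc C / Real.log x ≤ C / (lb * q / 2) := by gcongr
        _ ≤ δ := by
          rw [hδ, div_le_div_iff₀ (by positivity) hl0]
          rw [div_mul_eq_mul_div, div_le_iff₀ (by positivity)] at e4
          linarith
    calc C * (x / Real.log x) = C / Real.log x * x := by ring
      _ ≤ δ * x := mul_le_mul_of_nonneg_right h1 hx0.le
  have hup := AA_up hb hδ0 (by linarith) hbq h3 (fun x hx => by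
    have := (abs_le.1 (hpi x hx)).2
    linarith)
  have hlo := AA_low hb hδ0 (by linarith) hbq h3 hinv (fun x hx => by
    have := (abs_le.1 (hpi x hx)).1
    linarith)
  rw [← hlb] at hup hlo
  -- error terms
  have hE0 : 0 ≤ Real.exp (-(δ * (lb * q) / 2)) * ZZ q := mul_nonneg (Real.exp_pos _).le (ZZ_nonneg q)
  have hE : Real.exp (-(δ * (lb * q) / 2)) * ZZ q ≤ 1 / q := by
    have h8 : δ * (lb * q) / 2 = (C2 + 1) * (q / l) := by
      rw [hδ, hD0def]
      field_simp
    rw [h8]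
    calc Real.exp (-((C2 + 1) * (q / l))) * ZZ q ≤
        Real.exp (-((C2 + 1) * (q / l))) * Real.exp (C2 * (q / l)) :=
          mul_le_mul_of_nonneg_left (hZ q hq2) (Real.exp_pos _).le
      _ = Real.exp (-(q / l)) := by rw [← Real.exp_add]; congr 1; ring
      _ ≤ Real.exp (-l) := by
          refine Real.exp_le_exp.2 (neg_le_neg ?_)
          rw [le_div_iff₀ hl0, ← sq]
          exact e5
      _ = 1 / q := by rw [Real.exp_neg, hl, Real.exp_log hq0, one_div]
  have hF : q * Real.exp (-((1 - δ) * (lb * q))) ≤ 1 / q := by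
    have h8 : 2 * l ≤ (1 - δ) * (lb * q) := by
      rw [div_mul_eq_mul_div, div_le_iff₀ hlb0] at e6
      nlinarith
    calc q * Real.exp (-((1 - δ) * (lb * q))) ≤ q * Real.exp (-(2 * l)) :=
          mul_le_mul_of_nonneg_left (Real.exp_le_exp.2 (neg_le_neg h8)) hq0.le
      _ = 1 / q := by
          have h9 : Real.exp (-(2 * l)) = (q : ℝ)⁻¹ * (q : ℝ)⁻¹ := by
            have e : -(2 * l) = -l + -l := by ring
            rw [e, Real.exp_add, Real.exp_neg, hl, Real.exp_log hq0]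
          rw [h9]
          field_simp
  -- Mertens
  have hVB := VB_eq hb hbq
  rw [← hρdef] at hVB
  obtain ⟨v1, v2⟩ := abs_le.1 (hV q hq2)
  have hVle : VV q ≤ G * l + C1 := by linarith
  have hVge : G * l - C1 ≤ VV q := by linarith
  have hVnn := VV_nonneg q
  -- the mean
  have hbpow : (0 : ℝ) < (b : ℝ) ^ q := by
    have : (0 : ℝ) < b := by exact_mod_cast (by omega : 0 < b)
    positivity
  have hmq : mq b q = AA b q / ((b : ℝ) ^ q) / ρ := by
    unfold mq
    rw [tot_pow hb (by omega), ← hρdef]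
    field_simp
  have hA1 : AA b q / (b : ℝ) ^ q ≤ (1 + δ) / ((1 - 2 * δ) * (lb * q)) * (VV q * ρ) + 1 / q := by
    rw [div_le_iff₀ hbpow]
    refine hup.trans ?_
    rw [hVB, mul_comm]
    refine mul_le_mul_of_nonneg_right ?_ hbpow.le
    linarith
  have hA2 : (1 - δ) ^ 2 / (lb * q) * (VV q * ρ - 1 / q) - 1 / q ≤ AA b q / (b : ℝ) ^ q := by
    rw [le_div_iff₀ hbpow]
    refine le_trans ?_ hlo
    rw [hVB, mul_comm ((b : ℝ) ^ q)]
    refine mul_le_mul_of_nonneg_right ?_ hbpow.le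
    have h5 : (1 - δ) ^ 2 / (lb * q) * (VV q * ρ - 1 / q) ≤ (1 - δ) ^ 2 / (lb * q) *
        (VV q * ρ - Real.exp (-(δ * (lb * q) / 2)) * ZZ q) := by
      apply mul_le_mul_of_nonneg_left (by linarith) (by positivity)
    linarith
  have hiq : 0 < 1 / (q : ℝ) := by positivity
  have hiP : 0 < 1 / (lb * q) := by positivity
  -- upper bound
  have hU : mq b q ≤ G / lb * (l / q) + ((8 * D0 * G + 3 * C1) / lb + (1 / lb + 2) / ρ) / q := by
    have h5 : (1 + δ) / ((1 - 2 * δ) * (lb * q)) ≤ (1 + 8 * δ) * (1 / (lb * q)) := by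
      have h6 : 0 < 1 - 2 * δ := by linarith
      rw [div_le_iff₀ (by positivity)]
      have e : (1 + 8 * δ) * (1 / (lb * q)) * ((1 - 2 * δ) * (lb * q)) = (1 + 8 * δ) * (1 - 2 * δ) := by
        field_simp
      rw [e]
      nlinarith
    have h6 : (1 + δ) / ((1 - 2 * δ) * (lb * q)) * (VV q * ρ) ≤
        (1 + 8 * δ) * (1 / (lb * q)) * ((G * l + C1) * ρ) := by
      apply mul_le_mul h5 _ (by positivity) (by positivity)
      exact mul_le_mul_of_nonneg_right hVle hρ.le
    have h7 : (1 + 8 * δ) * (G * l + C1) ≤ G * l + (8 * D0 * G + 3 * C1) := by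
      have : (1 + 8 * δ) * (G * l + C1) = G * l + (8 * (δ * l) * G + (1 + 8 * δ) * C1) := by ring
      rw [this, hδl]
      have : 8 * δ * C1 ≤ 1 * C1 := mul_le_mul_of_nonneg_right (by linarith) hC1.le
      linarith
    have h8 : AA b q / (b : ℝ) ^ q ≤ (G * l + (8 * D0 * G + 3 * C1)) * (1 / (lb * q)) * ρ + 1 / q := by
      refine hA1.trans ?_
      have : (1 + 8 * δ) * (1 / (lb * q)) * ((G * l + C1) * ρ) ≤
          (G * l + (8 * D0 * G + 3 * C1)) * (1 / (lb * q)) * ρ := by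
        have e : (1 + 8 * δ) * (1 / (lb * q)) * ((G * l + C1) * ρ) =
          ((1 + 8 * δ) * (G * l + C1)) * (1 / (lb * q)) * ρ := by ring
        rw [e]
        gcongr
      linarith
    rw [hmq, div_le_iff₀ hρ]
    refine h8.trans ?_
    have e : (G / lb * (l / q) + ((8 * D0 * G + 3 * C1) / lb + (1 / lb + 2) / ρ) / q) * ρ =
        (G * l + (8 * D0 * G + 3 * C1)) * (1 / (lb * q)) * ρ + (1 / lb + 2) * (1 / q) := by
      field_simp
      ring
    rw [e]
    have : 0 < 1 / lb := by positivity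
    nlinarith
  have hL : G / lb * (l / q) - ((8 * D0 * G + 3 * C1) / lb + (1 / lb + 2) / ρ) / q ≤ mq b q := by
    have h5 : (1 - 2 * δ) * (1 / (lb * q)) * ((G * l - C1) * ρ) ≤ (1 - δ) ^ 2 / (lb * q) * (VV q * ρ) := by
      have h6 : (1 - 2 * δ) * (1 / (lb * q)) ≤ (1 - δ) ^ 2 / (lb * q) := by
        rw [mul_one_div]
        apply div_le_div_of_nonneg_right _ hP.le
        nlinarith
      calc (1 - 2 * δ) * (1 / (lb * q)) * ((G * l - C1) * ρ) ≤
          (1 - 2 * δ) * (1 / (lb * q)) * (VV q * ρ) := by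
            apply mul_le_mul_of_nonneg_left _ (mul_nonneg (by linarith) hiP.le)
            exact mul_le_mul_of_nonneg_right hVge hρ.le
        _ ≤ _ := mul_le_mul_of_nonneg_right h6 (by positivity)
    have h7 : G * l - (8 * D0 * G + 3 * C1) ≤ (1 - 2 * δ) * (G * l - C1) := by
      have : (1 - 2 * δ) * (G * l - C1) = G * l - (2 * (δ * l) * G + (1 - 2 * δ) * C1) := by ring
      rw [this, hδl]
      have : 0 < δ * C1 := by positivity
      have : 0 < D0 * G := by positivity
      linarith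
    have h8 : (1 - δ) ^ 2 / (lb * q) * (1 / q) ≤ 1 / lb * (1 / q) := by
      apply mul_le_mul_of_nonneg_right _ hiq.le
      rw [div_le_div_iff₀ hP hlb0]
      have : (1 - δ) ^ 2 ≤ 1 := by nlinarith
      nlinarith
    have h9 : (G * l - (8 * D0 * G + 3 * C1)) * (1 / (lb * q)) * ρ - (1 / lb + 1) * (1 / q) ≤
        AA b q / (b : ℝ) ^ q := by
      refine le_trans ?_ hA2
      have : (G * l - (8 * D0 * G + 3 * C1)) * (1 / (lb * q)) * ρ ≤
          (1 - 2 * δ) * (1 / (lb * q)) * ((G * l - C1) * ρ) := by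
        have e : (1 - 2 * δ) * (1 / (lb * q)) * ((G * l - C1) * ρ) =
          ((1 - 2 * δ) * (G * l - C1)) * (1 / (lb * q)) * ρ := by ring
        rw [e]
        gcongr
      have e : (1 - δ) ^ 2 / (lb * q) * (VV q * ρ - 1 / q) =
        (1 - δ) ^ 2 / (lb * q) * (VV q * ρ) - (1 - δ) ^ 2 / (lb * q) * (1 / q) := by ring
      rw [e]
      linarith
    rw [hmq, le_div_iff₀ hρ]
    refine le_trans ?_ h9
    have e : (G / lb * (l / q) - ((8 * D0 * G + 3 * C1) / lb + (1 / lb + 2) / ρ) / q) * ρ =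
        (G * l - (8 * D0 * G + 3 * C1)) * (1 / (lb * q)) * ρ - (1 / lb + 2) * (1 / q) := by
      field_simp
      ring
    rw [e]
    linarith
  rw [abs_le]
  constructor <;> linarith

end Pool.Agent.R303.TA
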